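import Pool.Agent.X51.Girth.Regular

set_option autoImplicit false

/-!
# The family for MP_8888ff
-/

namespace Pool.Agent.X51.Girth

open SimpleGraph

/-- number of vertices of the chosen `d`-regular graph of girth greater than `g` -/
noncomputable def N (d g : ℕ) : ℕ := (reg_girth d g).choose

noncomputable def X (d g : ℕ) : SimpleGraph (Fin (N d g)) := (reg_girth d g).choose_spec.choose

theorem N_pos (d g : ℕ) : 0 < N d g := (reg_girth d g).choose_spec.choose_spec.1

theorem X_reg (d g : ℕ) (v : Fin (N d g)) : ((X d g).neighborSet v).ncard = d :=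
  (reg_girth d g).choose_spec.choose_spec.2.1 v

theorem X_girth (d g : ℕ) (v : Fin (N d g)) (w : (X d g).Walk v v) (hw : w.IsCycle) :
    g < w.length := (reg_girth d g).choose_spec.choose_spec.2.2 v w hw

theorem lt_N (d g : ℕ) : d < N d g := by
  have v : Fin (N d g) := ⟨0, N_pos d g⟩
  have h1 : ((X d g).neighborSet v) ⊆ {v}ᶜ := by
    intro w hw
    rw [Set.mem_compl_iff, Set.mem_singleton_iff]
    exact fun h => hw.ne h.symm
  have h2 := Set.ncard_le_ncard h1 (Set.toFinite _)
  rw [X_reg, Set.ncard_compl, Set.ncard_singleton, Nat.card_eq_fintype_card, Fintype.card_fin] at h2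
  have := N_pos d g
  omega

/-- the sequence of bounds -/
noncomputable def s : ℕ → ℕ
  | 0 => 0
  | i + 1 => N (N (s i + i + 1) (s i)) (N (s i + i + 1) (s i))

/-- the sequence of maximum degrees -/
noncomputable def D (i : ℕ) : ℕ := N (s i + i + 1) (s i)

theorem s_succ (i : ℕ) : s (i + 1) = N (D i) (D i) := rfl

theorem s_lt_D (i : ℕ) : s i + i + 1 < D i := lt_N _ _

theorem D_lt_s (i : ℕ) : D i < s (i + 1) := by
  rw [s_succ]
  exact lt_N _ _

theorem s_mono : Monotone s := monotone_nat_of_le_succ fun i => by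
  have h1 := s_lt_D i
  have h2 := D_lt_s i
  omega

theorem D_mono : Monotone D := monotone_nat_of_le_succ fun i => by
  have h1 := s_lt_D (i + 1)
  have h2 := D_lt_s i
  omega

/-- The family: all connected graphs containing a cycle whose number of vertices lies in one of
the intervals `(D i, s (i+1)]`. -/
def Fam : Set (Σ k : ℕ, SimpleGraph (Fin k)) :=
  {p | p.2.Connected ∧ ¬ p.2.IsAcyclic ∧ ∃ i, D i < p.1 ∧ p.1 ≤ s (i + 1)}

theorem fam_cyclic (p : Σ k : ℕ, SimpleGraph (Fin k)) (hp : p ∈ Fam) : ¬ p.2.IsAcyclic := hp.2.1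

/-- `K_{2,m-2}` -/
def biclique (m : ℕ) : SimpleGraph (Fin m) where
  Adj x y := (x.val < 2 ∧ 2 ≤ y.val) ∨ (y.val < 2 ∧ 2 ≤ x.val)
  symm := ⟨fun _ _ h => h.symm⟩
  loopless := ⟨fun _ h => by omega⟩

theorem biclique_connected (m : ℕ) (hm : 4 ≤ m) : (biclique m).Connected := by
  have h0 : ∀ x : Fin m, (biclique m).Reachable x ⟨0, by omega⟩ := by
    intro x
    by_cases hx : x.val < 2
    · have h1 : (biclique m).Adj x ⟨2, by omega⟩ := Or.inl ⟨hx, le_refl 2⟩
      have h2 : (biclique m).Adj ⟨2, by omega⟩ ⟨0, by omega⟩ := Or.inr ⟨by norm_num, le_refl 2⟩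
      exact h1.reachable.trans h2.reachable
    · have h1 : (biclique m).Adj x ⟨0, by omega⟩ := Or.inr ⟨by norm_num, by omega⟩
      exact h1.reachable
  have : Nonempty (Fin m) := ⟨⟨0, by omega⟩⟩
  exact ⟨fun x y => (h0 x).trans (h0 y).symm⟩

theorem biclique_not_acyclic (m : ℕ) (hm : 4 ≤ m) : ¬ (biclique m).IsAcyclic := by
  apply not_acyclic_of_degree (by omega)
  intro v
  have key : ∀ a b : Fin m, a ≠ b → (biclique m).Adj v a → (biclique m).Adj v b →
      2 ≤ ((biclique m).neighborSet v).ncard := by
    intro a b hab ha hb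
    have h1 : ({a, b} : Set (Fin m)) ⊆ (biclique m).neighborSet v := by
      intro w hw
      rcases hw with rfl | rfl
      · exact ha
      · exact hb
    have h2 := Set.ncard_le_ncard h1 (Set.toFinite _)
    rwa [Set.ncard_pair hab] at h2
  by_cases hv : v.val < 2
  · exact key ⟨2, by omega⟩ ⟨3, by omega⟩ (by simp) (Or.inl ⟨hv, by simp⟩) (Or.inl ⟨hv, by simp⟩)
  · exact key ⟨0, by omega⟩ ⟨1, by omega⟩ (by simp) (Or.inr ⟨by simp, by omega⟩)
      (Or.inr ⟨by simp, by omega⟩)

theorem biclique_colorable (m : ℕ) : (biclique m).Colorable 2 := by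
  refine (Coloring.mk (α := Bool) (fun x => decide (x.val < 2)) ?_).colorable
  intro x y hxy
  change (x.val < 2 ∧ 2 ≤ y.val) ∨ (y.val < 2 ∧ 2 ≤ x.val) at hxy
  simp only [ne_eq, decide_eq_decide]
  omega

theorem fam_bipartite : ∃ p ∈ Fam, p.2.Colorable 2 := by
  have h1 := s_lt_D 1
  have h2 : D 1 < s 2 := D_lt_s 1
  have h3 := s_lt_D 0
  have h4 : D 0 < s 1 := D_lt_s 0
  refine ⟨⟨s 2, biclique (s 2)⟩, ⟨biclique_connected _ (by omega),
    biclique_not_acyclic _ (by omega), 1, h2, le_rfl⟩, biclique_colorable _⟩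

/-- The regular graph on `D i` vertices contains no member of the family. -/
theorem T_free (i : ℕ) (p : Σ k : ℕ, SimpleGraph (Fin k)) (hp : p ∈ Fam) :
    ¬ p.2.IsContained (X (s i + i + 1) (s i)) := by
  rintro ⟨f⟩
  obtain ⟨_, hac, j, hj1, hj2⟩ := hp
  have hcard : p.1 ≤ D i := by
    have := Fintype.card_le_of_injective _ f.injective'
    rwa [Fintype.card_fin, Fintype.card_fin] at this
  have hji : j < i := by
    by_contra h
    have := D_mono (not_lt.1 h)
    omega
  have hs : p.1 ≤ s i := hj2.trans (s_mono hji)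
  rw [IsAcyclic] at hac
  push Not at hac
  obtain ⟨v, w, hw⟩ := hac
  have h1 := X_girth _ _ _ (w.map f.toHom) (hw.map f.injective')
  rw [Walk.length_map] at h1
  have h2 : w.length ≤ p.1 := by
    have h3 := hw.support_nodup
    have h4 := h3.length_le_card
    rw [List.length_tail, Walk.length_support, Fintype.card_fin] at h4
    omega
  omega

/-- Every subgraph of minimum degree two of the large regular graph contains a member. -/
theorem H_not_free (i : ℕ) (H : SimpleGraph (Fin (N (D i) (D i)))) (hH : H ≤ X (D i) (D i))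
    (hdeg : ∀ v, 2 ≤ (H.neighborSet v).ncard) : ∃ p ∈ Fam, p.2.IsContained H := by
  classical
  have hac := not_acyclic_of_degree (N_pos _ _) H hdeg
  rw [IsAcyclic] at hac
  push Not at hac
  obtain ⟨v, w, hw⟩ := hac
  -- the component
  let C : H.ConnectedComponent := H.connectedComponentMk v
  have hsup : ∀ x ∈ w.support, x ∈ C.supp := by
    intro x hx
    rw [ConnectedComponent.mem_supp_iff]
    exact ConnectedComponent.sound (w.takeUntil x hx).reachable.symm
  have hfin : Fintype C.supp := Fintype.ofFinite _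
  let e := Fintype.equivFin C.supp
  let K : SimpleGraph (Fin (Fintype.card C.supp)) := (H.induce C.supp).map e.toEmbedding
  let iso : H.induce C.supp ≃g K := SimpleGraph.Iso.map e (H.induce C.supp)
  have hconn : (H.induce C.supp).Connected := C.connected_toSimpleGraph
  -- the cycle in the component
  have hw' : ((w.induce C.supp hsup).map (Embedding.induce C.supp).toHom) = w :=
    Walk.map_induce w hsup
  have hinj : Function.Injective (Embedding.induce (G := H) C.supp).toHom :=
    (Embedding.induce (G := H) C.supp).injective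
  have hcyc : (w.induce C.supp hsup).IsCycle := by
    rw [← Walk.isCycle_map_iff_of_injective hinj]
    exact hw'.symm ▸ hw
  have hleni : (w.induce C.supp hsup).length = w.length := by
    rw [← Walk.length_map (Embedding.induce (G := H) C.supp).toHom, hw']
    rfl
  have hlen : D i < w.length := by
    have h1 := X_girth _ _ _ (w.map (Hom.ofLE hH)) (hw.map Function.injective_id)
    rwa [Walk.length_map] at h1
  have hlen' : w.length ≤ Fintype.card C.supp := by
    have h3 := hcyc.support_nodup
    have h4 := h3.length_le_card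
    rw [List.length_tail, Walk.length_support, hleni] at h4
    omega
  have hcard : Fintype.card C.supp ≤ s (i + 1) := by
    have := Fintype.card_le_of_injective (Subtype.val : C.supp → _) Subtype.val_injective
    rwa [Fintype.card_fin] at this
  refine ⟨⟨_, K⟩, ⟨?_, ?_, i, lt_of_lt_of_le hlen hlen', hcard⟩, ?_⟩
  · exact iso.connected_iff.1 hconn
  · intro hK
    have := (iso.isAcyclic_iff).2 hK
    exact this _ hcyc
  · exact ⟨(Embedding.induce (G := H) C.supp).toCopy.comp iso.symm.toCopy⟩

theorem card_edges_X (d g : ℕ) : 2 * (X d g).edgeSet.ncard = N d g * d := by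
  classical
  have h1 := (X d g).sum_degrees_eq_twice_card_edges
  have h2 : ∀ v, (X d g).degree v = d := by
    intro v
    have := X_reg d g v
    rw [Set.ncard_eq_toFinset_card'] at this
    exact this
  simp_rw [h2] at h1
  rw [Finset.sum_const, Finset.card_univ, Fintype.card_fin, smul_eq_mul] at h1
  rw [h1, ← coe_edgeFinset, Set.ncard_coe_finset]

/-- the dense graph of large girth on `D i` vertices -/
noncomputable def T (i : ℕ) : SimpleGraph (Fin (D i)) := X (s i + i + 1) (s i)

theorem T_free' (i : ℕ) (p : Σ k : ℕ, SimpleGraph (Fin k)) (hp : p ∈ Fam) :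
    ¬ p.2.IsContained (T i) := T_free i p hp

theorem T_edges (i : ℕ) : 2 * (T i).edgeSet.ncard = D i * (s i + i + 1) :=
  card_edges_X (s i + i + 1) (s i)

end Pool.Agent.X51.Girth
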