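import Mathlib
import Pool.Agent.H709Exc.J_girth_graph

set_option autoImplicit false

/-!
# Regular graphs of large girth on `Fin n`
-/

namespace Pool.Agent.X51.Girth

open SimpleGraph Pool.Agent.H709Exc

theorem reg_girth (d g : ℕ) : ∃ (n : ℕ) (G : SimpleGraph (Fin n)), 0 < n ∧
    (∀ v, (G.neighborSet v).ncard = d) ∧ ∀ (v : Fin n) (w : G.Walk v v), w.IsCycle → g < w.length := by
  classical
  obtain ⟨Γ, hG, hF, s, hs, hw⟩ := girth_graph_biggs d (g + 2)
  have hs1 : ∀ c, s c ≠ 1 := by
    intro c h
    apply hw [c] (by simp) (by simp) (List.isChain_singleton _)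
    simp [h]
  have hinj : Function.Injective s := by
    intro c c' h
    by_contra hne
    apply hw [c, c'] (by simp) (by simp)
    · rw [List.isChain_cons_cons]
      exact ⟨hne, List.isChain_singleton _⟩
    · simp only [List.map_cons, List.map_nil, List.prod_cons, List.prod_nil, mul_one]
      rw [← h, hs]
  let H : SimpleGraph (ULift.{0} Γ) :=
    { Adj := fun x y => ∃ c, y.down = x.down * s c
      symm := ⟨by
        rintro x y ⟨c, hc⟩
        exact ⟨c, by rw [hc, mul_assoc, hs, mul_one]⟩⟩
      loopless := ⟨by
        rintro x ⟨c, hc⟩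
        exact hs1 c (by simpa using hc.symm)⟩ }
  have hH : ∀ x y, H.Adj x y ↔ ∃ c, y.down = x.down * s c := fun x y => Iff.rfl
  have hdeg : ∀ v, (H.neighborSet v).ncard = d := by
    intro v
    have h1 : H.neighborSet v = (fun c : Fin d => (ULift.up (v.down * s c) : ULift.{0} Γ)) '' Set.univ := by
      ext w
      rw [mem_neighborSet, hH, Set.image_univ, Set.mem_range]
      constructor
      · rintro ⟨c, hc⟩
        exact ⟨c, by rw [← hc]⟩
      · rintro ⟨c, hc⟩
        exact ⟨c, by rw [← hc]⟩
    rw [h1, Set.ncard_image_of_injective, Set.ncard_univ, Nat.card_eq_fintype_card, Fintype.card_fin]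
    intro c c' h
    have h1 : v.down * s c = v.down * s c' := congrArg ULift.down h
    exact hinj (mul_left_cancel h1)
  have hgirth : ∀ (v : ULift.{0} Γ) (w : H.Walk v v), w.IsCycle → g < w.length := by
    intro v w hcyc
    by_contra hlen
    push Not at hlen
    obtain ⟨l, hl1, hl2, hl3, -⟩ := girth_graph_walk d s hs H hH w hcyc.isTrail
    have hne : l ≠ [] := by
      intro h
      rw [h] at hl1
      have := hcyc.three_le_length
      simp at hl1
      omega
    apply hw l hne (by omega) hl3
    have : v.down * 1 = v.down * (l.map s).prod := by rw [mul_one]; exact hl2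
    exact (mul_left_cancel this).symm
  -- transport to `Fin n`
  let e := Fintype.equivFin (ULift.{0} Γ)
  let G : SimpleGraph (Fin (Fintype.card (ULift.{0} Γ))) := H.map e.toEmbedding
  let iso : H ≃g G := SimpleGraph.Iso.map e H
  refine ⟨Fintype.card (ULift.{0} Γ), G, Fintype.card_pos_iff.2 ⟨ULift.up 1⟩, ?_, ?_⟩
  · intro v
    have h1 : G.neighborSet v = iso '' (H.neighborSet (iso.symm v)) := by
      ext w
      rw [mem_neighborSet, Set.mem_image]
      constructor
      · intro hvw
        refine ⟨iso.symm w, ?_, iso.apply_symm_apply w⟩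
        rw [mem_neighborSet]
        exact iso.symm.map_adj_iff.2 hvw
      · rintro ⟨u, hu, rfl⟩
        rw [mem_neighborSet] at hu
        have := iso.map_adj_iff.2 hu
        rwa [iso.apply_symm_apply] at this
    rw [h1, Set.ncard_image_of_injective _ iso.injective]
    exact hdeg _
  · intro v w hcyc
    have h1 := hgirth _ (w.map iso.symm.toHom) (hcyc.map iso.symm.injective)
    rwa [Walk.length_map] at h1

/-- A finite nonempty graph in which all degrees are at least two contains a cycle. -/
theorem not_acyclic_of_degree {n : ℕ} (hn : 0 < n) (H : SimpleGraph (Fin n))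
    (h : ∀ v, 2 ≤ (H.neighborSet v).ncard) : ¬ H.IsAcyclic := by
  classical
  intro hac
  have hne : Nonempty (Fin n) := ⟨⟨0, hn⟩⟩
  obtain ⟨T, hHT, _, hT⟩ := Connected.exists_isTree_le_of_le_of_isAcyclic
    (connected_top (V := Fin n)) (le_top : H ≤ ⊤) hac
  have h1 := hT.card_edgeFinset
  rw [Fintype.card_fin] at h1
  have h2 : H.edgeFinset.card ≤ T.edgeFinset.card := Finset.card_le_card (edgeFinset_mono hHT)
  have h3 := H.sum_degrees_eq_twice_card_edges
  have h4 : ∑ v : Fin n, 2 ≤ ∑ v : Fin n, H.degree v := by
    apply Finset.sum_le_sum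
    intro v _
    have h5 := h v
    rw [Set.ncard_eq_toFinset_card'] at h5
    exact h5
  rw [Finset.sum_const, Finset.card_univ, Fintype.card_fin, smul_eq_mul] at h4
  omega

end Pool.Agent.X51.Girth
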